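import Pool.Agent.H211.HY.Stm1
import Pool.Graph.R_seed8.H792R2.CE.D3
import Pool.Graph.R_seed8.H792R2.CE.D6

set_option autoImplicit false

open Topology Filter Metric Set MeasureTheory Polynomial

namespace Pool.Agent.H549.HY211

open Pool.Agent.H211.HY

/-! ### Polynomial bounds -/

/-- the upper bound -/
theorem upper (S : ℂ[X]) (n : ℕ) (h : S.natDegree ≤ 2 * n) : ∃ C : ℝ, 0 ≤ C ∧ ∀ z : ℂ,
    ‖S.eval z‖ ≤ C * (1 + ‖z‖ ^ 2) ^ n := by
  refine ⟨∑ i ∈ Finset.range (2 * n + 1), ‖S.coeff i‖, Finset.sum_nonneg fun _ _ => norm_nonneg _, fun z => ?_⟩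
  rw [Polynomial.eval_eq_sum_range' (Nat.lt_succ_of_le h), Finset.sum_mul]
  refine (norm_sum_le _ _).trans (Finset.sum_le_sum fun i hi => ?_)
  rw [norm_mul, norm_pow]
  refine mul_le_mul_of_nonneg_left ?_ (norm_nonneg _)
  have hi' : i ≤ 2 * n := Nat.lt_succ_iff.1 (Finset.mem_range.1 hi)
  have hx := norm_nonneg z
  by_cases h1 : ‖z‖ ≤ 1
  · calc ‖z‖ ^ i ≤ 1 := pow_le_one₀ hx h1
      _ ≤ (1 + ‖z‖ ^ 2) ^ n := one_le_pow₀ (by nlinarith)
  · calc ‖z‖ ^ i ≤ ‖z‖ ^ (2 * n) := pow_le_pow_right₀ (not_le.1 h1).le hi'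
      _ = (‖z‖ ^ 2) ^ n := by rw [pow_mul]
      _ ≤ (1 + ‖z‖ ^ 2) ^ n := pow_le_pow_left₀ (by positivity) (by linarith) n

/-- evaluation of the reflected polynomial -/
theorem refl_eval (T : ℂ[X]) (d : ℕ) (h : T.natDegree ≤ d) (z : ℂ) (hz : z ≠ 0) :
    T.eval z = (T.reflect d).eval z⁻¹ * z ^ d := by
  have : Invertible z := invertibleOfNonzero hz
  have := eval₂_reflect_mul_pow (RingHom.id ℂ) z d T h
  rw [invOf_eq_inv] at this
  simpa [Polynomial.eval₂_id] using this.symm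

/-- the lower bound -/
theorem lower (P Q : ℂ[X]) (d : ℕ) (hd0 : 2 ≤ d) (hc : IsCoprime P Q) (hd : max P.natDegree Q.natDegree = d) :
    ∃ c : ℝ, 0 < c ∧ ∀ z : ℂ, c * (1 + ‖z‖ ^ 2) ^ d ≤ ‖P.eval z‖ ^ 2 + ‖Q.eval z‖ ^ 2 := by
  have hPd : P.natDegree ≤ d := hd ▸ le_max_left _ _
  have hQd : Q.natDegree ≤ d := hd ▸ le_max_right _ _
  have hpos : ∀ z : ℂ, 0 < ‖P.eval z‖ ^ 2 + ‖Q.eval z‖ ^ 2 := by
    intro z
    by_contra hle
    have h1 : ‖P.eval z‖ ^ 2 + ‖Q.eval z‖ ^ 2 = 0 := le_antisymm (not_lt.1 hle) (by positivity)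
    have hP : P.eval z = 0 := by
      have : ‖P.eval z‖ ^ 2 = 0 := by nlinarith [sq_nonneg ‖P.eval z‖, sq_nonneg ‖Q.eval z‖]
      simpa using this
    have hQ : Q.eval z = 0 := by
      have : ‖Q.eval z‖ ^ 2 = 0 := by nlinarith [sq_nonneg ‖P.eval z‖, sq_nonneg ‖Q.eval z‖]
      simpa using this
    obtain ⟨a, b, hab⟩ := hc
    have := congrArg (Polynomial.eval z) hab
    simp [hP, hQ] at this
  have hposr : ∀ w : ℂ, 0 < ‖(P.reflect d).eval w‖ ^ 2 + ‖(Q.reflect d).eval w‖ ^ 2 := by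
    intro w
    by_cases hw : w = 0
    · rw [hw]
      have e : ∀ T : ℂ[X], (T.reflect d).eval 0 = T.coeff d := by
        intro T
        rw [← Polynomial.coeff_zero_eq_eval_zero, Polynomial.coeff_reflect, Polynomial.revAt_le (Nat.zero_le d)]
        simp
      rw [e, e]
      rcases max_choice P.natDegree Q.natDegree with h1 | h1
      · have hP : P.natDegree = d := by omega
        have hP0 : P ≠ 0 := by
          rintro rfl
          simp at hP
          omega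
        have : P.coeff d ≠ 0 := by
          rw [← hP]; exact Polynomial.leadingCoeff_ne_zero.2 hP0
        have := norm_pos_iff.2 this
        positivity
      · have hQ : Q.natDegree = d := by omega
        have hQ0 : Q ≠ 0 := by
          rintro rfl
          simp at hQ
          omega
        have : Q.coeff d ≠ 0 := by
          rw [← hQ]; exact Polynomial.leadingCoeff_ne_zero.2 hQ0
        have := norm_pos_iff.2 this
        positivity
    · have h1 := refl_eval P d hPd w⁻¹ (inv_ne_zero hw)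
      have h2 := refl_eval Q d hQd w⁻¹ (inv_ne_zero hw)
      rw [inv_inv] at h1 h2
      by_contra hle
      have h3 : ‖(P.reflect d).eval w‖ ^ 2 + ‖(Q.reflect d).eval w‖ ^ 2 = 0 :=
        le_antisymm (not_lt.1 hle) (by positivity)
      have hP : (P.reflect d).eval w = 0 := by
        have : ‖(P.reflect d).eval w‖ ^ 2 = 0 := by
          nlinarith [sq_nonneg ‖(P.reflect d).eval w‖, sq_nonneg ‖(Q.reflect d).eval w‖]
        simpa using this
      have hQ : (Q.reflect d).eval w = 0 := by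
        have : ‖(Q.reflect d).eval w‖ ^ 2 = 0 := by
          nlinarith [sq_nonneg ‖(P.reflect d).eval w‖, sq_nonneg ‖(Q.reflect d).eval w‖]
        simpa using this
      rw [hP, zero_mul] at h1
      rw [hQ, zero_mul] at h2
      have := hpos w⁻¹
      rw [h1, h2] at this
      simp at this
  have hcomp : IsCompact (closedBall (0 : ℂ) 1) := isCompact_closedBall _ _
  have hne : (closedBall (0 : ℂ) 1).Nonempty := ⟨0, by simp⟩
  obtain ⟨z₀, -, hz₀⟩ := hcomp.exists_isMinOn hne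
    (f := fun z : ℂ => ‖P.eval z‖ ^ 2 + ‖Q.eval z‖ ^ 2) (by fun_prop)
  obtain ⟨w₀, -, hw₀⟩ := hcomp.exists_isMinOn hne
    (f := fun w : ℂ => ‖(P.reflect d).eval w‖ ^ 2 + ‖(Q.reflect d).eval w‖ ^ 2) (by fun_prop)
  set c₀ := ‖P.eval z₀‖ ^ 2 + ‖Q.eval z₀‖ ^ 2 with hc₀
  set c₁ := ‖(P.reflect d).eval w₀‖ ^ 2 + ‖(Q.reflect d).eval w₀‖ ^ 2 with hc₁
  have hc0 : 0 < c₀ := hpos z₀
  have hc1 : 0 < c₁ := hposr w₀
  refine ⟨min c₀ c₁ / 2 ^ d, by positivity, fun z => ?_⟩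
  have hmin : 0 < min c₀ c₁ := lt_min hc0 hc1
  have hx := norm_nonneg z
  by_cases h1 : ‖z‖ ≤ 1
  · have h2 : c₀ ≤ ‖P.eval z‖ ^ 2 + ‖Q.eval z‖ ^ 2 := hz₀ (by simpa using h1)
    refine le_trans ?_ h2
    calc min c₀ c₁ / 2 ^ d * (1 + ‖z‖ ^ 2) ^ d ≤ min c₀ c₁ / 2 ^ d * 2 ^ d := by
          gcongr
          nlinarith
      _ = min c₀ c₁ := by field_simp
      _ ≤ c₀ := min_le_left _ _
  · have h1' : 1 < ‖z‖ := not_le.1 h1
    have hz : z ≠ 0 := by
      intro h; rw [h] at h1'; simp at h1'; linarith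
    have h2 : c₁ ≤ ‖(P.reflect d).eval z⁻¹‖ ^ 2 + ‖(Q.reflect d).eval z⁻¹‖ ^ 2 := by
      refine hw₀ ?_
      simp only [mem_closedBall_zero_iff, norm_inv]
      exact inv_le_one_of_one_le₀ h1'.le
    rw [refl_eval P d hPd z hz, refl_eval Q d hQd z hz, norm_mul, norm_mul, norm_pow]
    have h3 : (1 + ‖z‖ ^ 2) ^ d ≤ (2 * ‖z‖ ^ 2) ^ d := pow_le_pow_left₀ (by positivity) (by nlinarith) d
    calc min c₀ c₁ / 2 ^ d * (1 + ‖z‖ ^ 2) ^ d ≤ min c₀ c₁ / 2 ^ d * (2 * ‖z‖ ^ 2) ^ d := by gcongr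
      _ = min c₀ c₁ * (‖z‖ ^ 2) ^ d := by rw [mul_pow]; field_simp
      _ ≤ (‖(P.reflect d).eval z⁻¹‖ ^ 2 + ‖(Q.reflect d).eval z⁻¹‖ ^ 2) * (‖z‖ ^ 2) ^ d := by
          gcongr
          exact (min_le_right _ _).trans h2
      _ = _ := by ring

/-! ### Grouping by the value -/

/-- a sum over atoms vanishes if all the masses vanish -/
theorem group_zero (a p : ℕ → ℂ) (g : ℂ → ℂ) (hs : Summable fun n => a n * g (p n))
    (hm : ∀ y : ℂ, ∑' n, (open Classical in if p n = y then a n else 0) = 0) :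
    ∑' n, a n * g (p n) = 0 := by
  classical
  rw [← (Equiv.sigmaFiberEquiv p).tsum_eq (fun n => a n * g (p n))]
  have hs' : Summable (fun x : (Σ y : ℂ, {n // p n = y}) => (fun n => a n * g (p n)) (Equiv.sigmaFiberEquiv p x)) :=
    (Equiv.sigmaFiberEquiv p).summable_iff.2 hs
  rw [hs'.tsum_sigma]
  have : ∀ y : ℂ, ∑' (n : {n // p n = y}), (fun n => a n * g (p n)) (Equiv.sigmaFiberEquiv p ⟨y, n⟩) = 0 := by
    intro y
    have h1 : ∀ n : {n // p n = y}, (fun n => a n * g (p n)) (Equiv.sigmaFiberEquiv p ⟨y, n⟩) = a n * g y := by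
      intro n
      have : (Equiv.sigmaFiberEquiv p ⟨y, n⟩) = (n : ℕ) := rfl
      simp only [this]
      rw [n.2]
    rw [tsum_congr h1, tsum_mul_right]
    have h2 : ∑' (n : {n // p n = y}), a (n : ℕ) = ∑' n, (if p n = y then a n else 0) := by
      have := tsum_subtype {n | p n = y} a
      rw [show (∑' (n : {n // p n = y}), a (n : ℕ)) = ∑' (x : ({n | p n = y} : Set ℕ)), a x from rfl, this]
      refine tsum_congr fun n => ?_
      by_cases h : p n = y
      · simp [Set.indicator, h]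
      · simp [Set.indicator, h]
    rw [h2, hm y, zero_mul]
  rw [tsum_congr this, tsum_zero]

/-! ### The Chinese remainder theorem -/

/-- test polynomials -/
theorem crt (Q : ℂ[X]) (d k : ℕ) (c : Fin k → ℂ) (m : Fin k → ℕ) (hinj : Function.Injective c)
    (hpos : ∀ i, 1 ≤ m i) (hdeg : ∑ i, m i = 2 * d - 2) (i₀ : Fin k) :
    ∃ S : ℂ[X], S.natDegree ≤ 2 * d ∧ Tng Q c m S ∧ S.eval (c i₀) = Q.eval (c i₀) ^ 2 ∧
      ∀ i, i ≠ i₀ → S.eval (c i) = 0 := by
  classical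
  set M₀ : ℂ[X] := (X - C (c i₀)) ^ m i₀ with hM₀
  set M₁ : ℂ[X] := ∏ i ∈ Finset.univ.erase i₀, (X - C (c i)) ^ m i with hM₁
  have hM₀m : M₀.Monic := (monic_X_sub_C _).pow _
  have hcop : IsCoprime M₀ M₁ := by
    refine IsCoprime.prod_right fun i hi => IsCoprime.pow_left (IsCoprime.pow_right ?_)
    exact isCoprime_X_sub_C_of_isUnit_sub
      (isUnit_iff_ne_zero.2 (sub_ne_zero.2 fun h => (Finset.ne_of_mem_erase hi) (hinj h).symm))
  obtain ⟨u, w, huw⟩ := hcop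
  have hdvd1 : ∀ i, i ≠ i₀ → (X - C (c i)) ^ m i ∣ M₁ := fun i hi =>
    Finset.dvd_prod_of_mem (fun i => (X - C (c i)) ^ m i) (Finset.mem_erase.2 ⟨hi, Finset.mem_univ i⟩)
  have hS0 : M₀ ∣ ((Q ^ 2 * w) %ₘ M₀) * M₁ - Q ^ 2 := by
    have h1 : (Q ^ 2 * w) %ₘ M₀ = Q ^ 2 * w - M₀ * ((Q ^ 2 * w) /ₘ M₀) := by
      have := modByMonic_add_div (Q ^ 2 * w) M₀
      linear_combination this
    refine ⟨-((Q ^ 2 * w) /ₘ M₀) * M₁ - Q ^ 2 * u, ?_⟩
    rw [h1]
    linear_combination Q ^ 2 * huw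
  have hlin : ∀ i, (X - C (c i)) ∣ (X - C (c i)) ^ m i := fun i =>
    dvd_pow_self _ (by have := hpos i; omega)
  refine ⟨((Q ^ 2 * w) %ₘ M₀) * M₁, ?_, ?_, ?_, ?_⟩
  · have h1 : ((Q ^ 2 * w) %ₘ M₀).natDegree ≤ m i₀ := by
      have h2 : M₀.natDegree = m i₀ := by rw [hM₀, natDegree_pow, natDegree_X_sub_C, mul_one]
      have h3 := natDegree_modByMonic_le (Q ^ 2 * w) hM₀m
      rw [h2] at h3
      exact h3
    have h2 : M₁.natDegree ≤ ∑ i ∈ Finset.univ.erase i₀, m i := by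
      refine (natDegree_prod_le _ _).trans (Finset.sum_le_sum fun i _ => ?_)
      rw [natDegree_pow, natDegree_X_sub_C, mul_one]
    have h3 : m i₀ + ∑ i ∈ Finset.univ.erase i₀, m i = 2 * d - 2 := by
      rw [← hdeg]; exact Finset.add_sum_erase _ _ (Finset.mem_univ i₀)
    have h4 := natDegree_mul_le (p := (Q ^ 2 * w) %ₘ M₀) (q := M₁)
    omega
  · intro i
    by_cases hi : i = i₀
    · refine ⟨1, ?_⟩
      rw [hi, map_one, one_mul]
      exact hS0
    · refine ⟨0, ?_⟩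
      rw [map_zero, zero_mul, sub_zero]
      exact Dvd.dvd.mul_left (hdvd1 i hi) _
  · have h1 : (X - C (c i₀)) ∣ ((Q ^ 2 * w) %ₘ M₀) * M₁ - Q ^ 2 := (hlin i₀).trans hS0
    rw [dvd_iff_isRoot, IsRoot.def, eval_sub, eval_pow, sub_eq_zero] at h1
    exact h1
  · intro i hi
    have h1 : (X - C (c i)) ∣ ((Q ^ 2 * w) %ₘ M₀) * M₁ :=
      ((hlin i).trans (hdvd1 i hi)).mul_left _
    rw [dvd_iff_isRoot, IsRoot.def] at h1
    exact h1

/-! ### The theorem -/

theorem t_ZERO : S_ZERO := by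
  classical
  intro P Q d k c m v α K μ β O hW h0
  rcases isEmpty_or_nonempty (Fin k) with hE | hN
  · exact Subsingleton.elim _ _
  obtain ⟨e⟩ : Nonempty (ℕ ≃ Fin k × ℕ) := nonempty_equiv_of_countable
  -- summability of the masses
  have hα1 : ∀ i j, ‖α i j‖ ≤ K * μ ^ j := fun i j => by
    refine le_trans ?_ (O.gr i j)
    have h1 := norm_nonneg (α i j)
    have h2 := sq_nonneg ‖v i j‖
    nlinarith [mul_nonneg h1 h2]
  have hgeo : Summable fun j : ℕ => K * μ ^ j :=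
    (summable_geometric_of_lt_one O.μ0.le O.μ1).mul_left K
  have hsumP : ∀ (F : Fin k × ℕ → ℂ), (∀ i, Summable fun j => ‖F (i, j)‖) → Summable fun x => ‖F x‖ := by
    intro F hF
    refine (summable_prod_of_nonneg (fun x => norm_nonneg (F x))).2 ⟨hF, ?_⟩
    exact (hasSum_fintype _).summable
  have hsA : Summable fun x : Fin k × ℕ => ‖β x.1 * α x.1 x.2‖ := by
    refine hsumP _ fun i => ?_
    refine Summable.of_nonneg_of_le (fun _ => norm_nonneg _) (fun j => ?_) (hgeo.mul_left ‖β i‖)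
    rw [norm_mul]
    exact mul_le_mul_of_nonneg_left (hα1 i j) (norm_nonneg _)
  set a : ℕ → ℂ := fun n => β (e n).1 * α (e n).1 (e n).2 with ha
  set p : ℕ → ℂ := fun n => v (e n).1 (e n).2 with hp
  have hsa : Summable fun n => ‖a n‖ := e.summable_iff.2 hsA
  have hker := Pool.Agent.H792R2.CE.D3a_kernel
  have hae : ∀ᵐ z : ℂ, Pool.Agent.H792R2.CE.phi a p z = 0 := by
    filter_upwards [h0, Pool.Agent.H792R2.CE.D3b_ae hsa hker] with z hz hzs
    rw [← hz]
    unfold Pool.Agent.H792R2.CE.phi HH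
    have h1 : Summable fun x : Fin k × ℕ => β x.1 * α x.1 x.2 / (z - v x.1 x.2) :=
      e.summable_iff.1 hzs.of_norm
    have h2 := e.tsum_eq (fun x : Fin k × ℕ => β x.1 * α x.1 x.2 / (z - v x.1 x.2))
    rw [show (∑' n, a n / (z - p n)) = ∑' x : Fin k × ℕ, β x.1 * α x.1 x.2 / (z - v x.1 x.2) from h2,
      h1.tsum_prod, tsum_fintype]
    refine Finset.sum_congr rfl fun i _ => ?_
    rw [← tsum_mul_left]
    exact tsum_congr fun j => by ring
  have hmass := Pool.Agent.H792R2.CE.D6_unique hsa hker hae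
  obtain ⟨cl, hcl, hlow⟩ := lower P Q d O.hd O.cop O.deg
  have hS : ∀ S : ℂ[X], S.natDegree ≤ 2 * d →
      ∑ i, β i * ∑' j, S.eval (v i j) / (Wp P Q).eval (v i j) * α i j = 0 := by
    intro S hSd
    obtain ⟨cu, hcu, hup⟩ := upper S d hSd
    set g : ℂ → ℂ := fun y => S.eval y / (Wp P Q).eval y with hg
    have hb : ∀ i j, ‖β i * α i j * g (v i j)‖ ≤ ‖β i‖ * (cu / cl * (K * μ ^ (j + 1))) := by
      intro i j
      have hQ := O.Qv i j
      have hWn := O.Wv i j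
      have e1 : β i * α i j * g (v i j) = β i * (α i (j + 1) * (S.eval (v i j) / Q.eval (v i j) ^ 2)) := by
        rw [O.αs, hg]
        field_simp
      rw [e1, norm_mul]
      refine mul_le_mul_of_nonneg_left ?_ (norm_nonneg _)
      rw [norm_mul, norm_div, norm_pow]
      have hQn : 0 < ‖Q.eval (v i j)‖ := norm_pos_iff.2 hQ
      have h3 : ‖S.eval (v i j)‖ / ‖Q.eval (v i j)‖ ^ 2 ≤ cu / cl * (1 + ‖v i (j + 1)‖ ^ 2) := by
        rw [O.vs, norm_div, div_le_iff₀ (by positivity)]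
        have h4 := hup (v i j)
        have h5 := hlow (v i j)
        have h6 : (1 + (‖P.eval (v i j)‖ / ‖Q.eval (v i j)‖) ^ 2) * ‖Q.eval (v i j)‖ ^ 2 =
            ‖P.eval (v i j)‖ ^ 2 + ‖Q.eval (v i j)‖ ^ 2 := by field_simp; ring
        rw [mul_assoc, h6]
        calc ‖S.eval (v i j)‖ ≤ cu * (1 + ‖v i j‖ ^ 2) ^ d := h4
          _ = cu / cl * (cl * (1 + ‖v i j‖ ^ 2) ^ d) := by field_simp
          _ ≤ _ := by gcongr
      calc ‖α i (j + 1)‖ * (‖S.eval (v i j)‖ / ‖Q.eval (v i j)‖ ^ 2)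
          ≤ ‖α i (j + 1)‖ * (cu / cl * (1 + ‖v i (j + 1)‖ ^ 2)) := by gcongr
        _ = cu / cl * (‖α i (j + 1)‖ * (1 + ‖v i (j + 1)‖ ^ 2)) := by ring
        _ ≤ cu / cl * (K * μ ^ (j + 1)) := by
          have := O.gr i (j + 1)
          gcongr
    have hsF : Summable fun x : Fin k × ℕ => ‖β x.1 * α x.1 x.2 * g (v x.1 x.2)‖ := by
      refine hsumP _ fun i => ?_
      refine Summable.of_nonneg_of_le (fun _ => norm_nonneg _) (fun j => hb i j) ?_
      exact (((summable_nat_add_iff 1).2 hgeo).mul_left _).mul_left _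
    have hsf : Summable fun n => a n * g (p n) := (e.summable_iff.2 hsF).of_norm
    have hz := group_zero a p g hsf (fun y => hmass y)
    have h2 := e.tsum_eq (fun x : Fin k × ℕ => β x.1 * α x.1 x.2 * g (v x.1 x.2))
    rw [show (∑' n, a n * g (p n)) = ∑' x : Fin k × ℕ, β x.1 * α x.1 x.2 * g (v x.1 x.2) from h2,
      hsF.of_norm.tsum_prod, tsum_fintype] at hz
    rw [← hz]
    refine Finset.sum_congr rfl fun i _ => ?_
    rw [← tsum_mul_left]
    exact tsum_congr fun j => by rw [hg]; ring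
  funext i₀
  obtain ⟨S, hSd, hST, hS0, hSi⟩ := crt Q d k c m O.inj O.pos O.dgm i₀
  have h1 := hW S hSd hST
  simp only [WF, mul_add, Finset.sum_add_distrib] at h1
  rw [hS S hSd, add_zero, Finset.sum_eq_single i₀ (fun i _ hi => by rw [hSi i hi]; simp) (by simp)] at h1
  rw [hS0, div_self (pow_ne_zero 2 (O.Qc i₀)), mul_one] at h1
  simpa using h1

end Pool.Agent.H549.HY211
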